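import Pool.Agent.Y702.Stm

set_option autoImplicit false

namespace Pool.Agent.Y702.P

open WeierstrassCurve WeierstrassCurve.Affine
open Pool.Agent.W97.MT (affCount ap)

/-- the five rational points of finite order, over any field in which `11` is not zero -/
theorem five_tors {k : Type} [Field k] [DecidableEq k] (h11 : (11 : k) ≠ 0) :
    ∃ P : (E11.map (Int.castRingHom k)).toAffine.Point, addOrderOf P = 5 := by
  set W : WeierstrassCurve k := E11.map (Int.castRingHom k) with hW
  have ha1 : W.a₁ = 0 := by simp [hW, E11]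
  have ha2 : W.a₂ = -1 := by simp [hW, E11]
  have ha3 : W.a₃ = 1 := by simp [hW, E11]
  have ha4 : W.a₄ = -10 := by simp [hW, E11]
  have ha6 : W.a₆ = -20 := by simp [hW, E11]
  have hΔ : W.Δ ≠ 0 := by
    have : W.Δ = -(11 ^ 5) := by
      simp only [WeierstrassCurve.Δ, WeierstrassCurve.b₂, WeierstrassCurve.b₄, WeierstrassCurve.b₆,
        WeierstrassCurve.b₈, ha1, ha2, ha3, ha4, ha6]
      norm_num
    rw [this, neg_ne_zero]
    exact pow_ne_zero _ h11
  have : W.IsElliptic := ⟨isUnit_iff_ne_zero.2 hΔ⟩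
  have hPe : W.toAffine.Equation 5 5 := by
    rw [WeierstrassCurve.Affine.equation_iff, ha1, ha2, ha3, ha4, ha6]; norm_num
  have hQe : W.toAffine.Equation 16 (-61) := by
    rw [WeierstrassCurve.Affine.equation_iff, ha1, ha2, ha3, ha4, ha6]; norm_num
  have hPn := (equation_iff_nonsingular (W := W.toAffine)).1 hPe
  have hQn := (equation_iff_nonsingular (W := W.toAffine)).1 hQe
  have hYP : (5 : k) ≠ W.toAffine.negY 5 5 := by
    rw [negY, ha1, ha3]
    intro h
    apply h11
    linear_combination h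
  have h121 : (121 : k) ≠ 0 := by
    rw [show (121 : k) = 11 ^ 2 by norm_num]
    exact pow_ne_zero 2 h11
  have hYQ : (-61 : k) ≠ W.toAffine.negY 16 (-61) := by
    rw [negY, ha1, ha3]
    intro h
    apply h121
    linear_combination -h
  have hslP : W.toAffine.slope 5 5 5 5 = 5 := by
    rw [slope_of_Y_ne rfl hYP, ha1, ha2, ha4, negY, ha1, ha3]
    rw [div_eq_iff]
    · norm_num
    · intro h; apply h11; linear_combination h
  have hslQ : W.toAffine.slope 16 16 (-61) (-61) = -6 := by
    rw [slope_of_Y_ne rfl hYQ, ha1, ha2, ha4, negY, ha1, ha3]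
    rw [div_eq_iff]
    · norm_num
    · intro h; apply h121; linear_combination -h
  have hPP : (Point.some _ _ hPn : W.toAffine.Point) + Point.some _ _ hPn =
      Point.some _ _ hQn := by
    rw [Point.add_self_of_Y_ne hYP]
    have e1 : W.toAffine.addX 5 5 (W.toAffine.slope 5 5 5 5) = 16 := by
      rw [hslP, addX, ha1, ha2]; norm_num
    have e2 : W.toAffine.addY 5 5 5 (W.toAffine.slope 5 5 5 5) = -61 := by
      rw [addY, e1, negAddY, e1, negY, ha1, ha3, hslP]; norm_num
    simp only [e1, e2]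
  have hQQ : (Point.some _ _ hQn : W.toAffine.Point) + Point.some _ _ hQn =
      -Point.some _ _ hPn := by
    rw [Point.add_self_of_Y_ne hYQ, Point.neg_some]
    have e1 : W.toAffine.addX 16 16 (W.toAffine.slope 16 16 (-61) (-61)) = 5 := by
      rw [hslQ, addX, ha1, ha2]; norm_num
    have e2 : W.toAffine.addY 16 16 (-61) (W.toAffine.slope 16 16 (-61) (-61)) =
        W.toAffine.negY 5 5 := by
      rw [addY, e1, negAddY, e1, negY, negY, ha1, ha3, hslQ]; norm_num
    simp only [e1, e2]
  refine ⟨Point.some _ _ hPn, ?_⟩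
  have : Fact (Nat.Prime 5) := ⟨by norm_num⟩
  apply addOrderOf_eq_prime
  · rw [show (5 : ℕ) = 2 + 2 + 1 from rfl, add_nsmul, add_nsmul, two_nsmul, one_nsmul, hPP, hQQ,
      neg_add_cancel]
  · exact Point.some_ne_zero _

theorem e11_eq {k : Type} [CommRing k] (P : k × k) :
    (E11.map (Int.castRingHom k)).toAffine.Equation P.1 P.2 ↔
      P.2 ^ 2 + P.2 = P.1 ^ 3 - P.1 ^ 2 - 10 * P.1 - 20 := by
  have ha1 : (E11.map (Int.castRingHom k)).a₁ = 0 := by simp [E11]
  have ha2 : (E11.map (Int.castRingHom k)).a₂ = -1 := by simp [E11]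
  have ha3 : (E11.map (Int.castRingHom k)).a₃ = 1 := by simp [E11]
  have ha4 : (E11.map (Int.castRingHom k)).a₄ = -10 := by simp [E11]
  have ha6 : (E11.map (Int.castRingHom k)).a₆ = -20 := by simp [E11]
  rw [WeierstrassCurve.Affine.equation_iff, ha1, ha2, ha3, ha4, ha6]
  constructor <;> intro h <;> linear_combination h

theorem s_five11 : S_FIVE11 := by
  classical
  intro p hp h5 h11
  have : Fact p.Prime := ⟨hp⟩
  have h11' : (11 : ZMod p) ≠ 0 := by
    intro h
    have := (ZMod.natCast_eq_zero_iff 11 p).1 (by exact_mod_cast h)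
    exact h11 ((Nat.prime_dvd_prime_iff_eq hp (by norm_num)).1 this)
  set W : WeierstrassCurve (ZMod p) := E11.map (Int.castRingHom (ZMod p)) with hW
  have hΔ : W.Δ ≠ 0 := by
    have : W.Δ = -(11 ^ 5) := by
      have ha1 : W.a₁ = 0 := by simp [hW, E11]
      have ha2 : W.a₂ = -1 := by simp [hW, E11]
      have ha3 : W.a₃ = 1 := by simp [hW, E11]
      have ha4 : W.a₄ = -10 := by simp [hW, E11]
      have ha6 : W.a₆ = -20 := by simp [hW, E11]
      simp only [WeierstrassCurve.Δ, WeierstrassCurve.b₂, WeierstrassCurve.b₄, WeierstrassCurve.b₆,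
        WeierstrassCurve.b₈, ha1, ha2, ha3, ha4, ha6]
      norm_num
    rw [this, neg_ne_zero]
    exact pow_ne_zero _ h11'
  have : W.IsElliptic := ⟨isUnit_iff_ne_zero.2 hΔ⟩
  have hcard : Nat.card (WeierstrassCurve.Affine.Point W.toAffine) = affCount E11 p + 1 := by
    rw [Nat.card_congr (pointEquiv W.toAffine)]
    unfold affCount
    exact Finite.card_option
  have : Finite (WeierstrassCurve.Affine.Point W.toAffine) := by
    have : Finite (WithZero {xy : ZMod p × ZMod p // W.toAffine.Equation xy.fst xy.snd}) :=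
      inferInstanceAs (Finite (Option {xy : ZMod p × ZMod p //
        W.toAffine.Equation xy.fst xy.snd}))
    exact Finite.of_equiv _ (pointEquiv W.toAffine).symm
  obtain ⟨P, hP⟩ := five_tors (k := ZMod p) h11'
  rw [← hcard, ← hP]
  exact addOrderOf_dvd_natCard _

theorem aff_eq (p : ℕ) [NeZero p] : affCount E11 p =
    (Finset.univ.filter (fun P : ZMod p × ZMod p =>
      P.2 ^ 2 + P.2 = P.1 ^ 3 - P.1 ^ 2 - 10 * P.1 - 20)).card := by
  unfold affCount
  rw [Nat.card_congr (Equiv.subtypeEquivRight e11_eq), Nat.card_eq_fintype_card,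
    Fintype.card_subtype]

theorem s_min11 : S_MIN11 := by
  refine ⟨?_, ?_, ?_, ?_, ?_, ?_, ?_, ?_⟩
  · simp [WeierstrassCurve.c₄, WeierstrassCurve.b₂, WeierstrassCurve.b₄, E11]
  · simp [WeierstrassCurve.c₆, WeierstrassCurve.b₂, WeierstrassCurve.b₄, WeierstrassCurve.b₆, E11]
  · simp [WeierstrassCurve.Δ, WeierstrassCurve.b₂, WeierstrassCurve.b₄, WeierstrassCurve.b₆,
      WeierstrassCurve.b₈, E11]
  · rw [aff_eq]; decide
  · rw [aff_eq]; decide
  · rw [aff_eq]; decide
  · rw [aff_eq]; decide +kernel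
  · intro p hp
    have : Fact p.Prime := ⟨hp⟩
    have : NeZero p := ⟨hp.ne_zero⟩
    rw [aff_eq]
    have h1 : (Finset.univ.filter (fun P : ZMod p × ZMod p =>
        P.2 ^ 2 + P.2 = P.1 ^ 3 - P.1 ^ 2 - 10 * P.1 - 20)).card ≤
        2 * (Finset.univ : Finset (ZMod p)).card := by
      apply Finset.card_le_mul_card_image_of_maps_to (f := Prod.fst)
      · intro _ _; exact Finset.mem_univ _
      · intro x _
        rcases Finset.eq_empty_or_nonempty ((Finset.univ.filter (fun P : ZMod p × ZMod p =>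
          P.2 ^ 2 + P.2 = P.1 ^ 3 - P.1 ^ 2 - 10 * P.1 - 20)).filter (fun P => P.1 = x)) with h | h
        · rw [h]; simp
        · obtain ⟨⟨x0, y0⟩, h0⟩ := h
          simp only [Finset.mem_filter, Finset.mem_univ, true_and] at h0
          obtain ⟨h0, rfl⟩ := h0
          refine le_trans (Finset.card_le_card (t := {(x0, y0), (x0, -1 - y0)}) ?_)
            Finset.card_le_two
          rintro ⟨x1, y1⟩ h1
          simp only [Finset.mem_filter, Finset.mem_univ, true_and] at h1
          obtain ⟨h1, rfl⟩ := h1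
          have h2 : (y1 - y0) * (y1 - (-1 - y0)) = 0 := by linear_combination h1 - h0
          rcases mul_eq_zero.1 h2 with h3 | h3
          · rw [sub_eq_zero.1 h3]; simp
          · rw [sub_eq_zero.1 h3]; simp
    rwa [Finset.card_univ, ZMod.card] at h1

end Pool.Agent.Y702.P
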