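import Pool.Agent.W646.MT.LAT
import Pool.Agent.Y702.Stm

/-!
Existence of the period lattice of the curve 11a1 by the intermediate value theorem.
-/

set_option autoImplicit false

open Set Filter Topology

namespace Pool.Agent.Y702.P

open Pool.Agent.H285R3.Str Pool.Agent.W520 Pool.Agent.W646.MT

/-- continuity -/
theorem G_cont' (k : ℕ) (hk : 2 < k) (T : ℝ) : ContinuousOn
    (fun t : ℝ => ∑' p : ℤ × ℤ, (((p.1 : ℂ) + p.2 * tau t) ^ k)⁻¹) (Icc (1 / 2) T) := by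
  have hh : (1 / 2 : ℝ) ≠ 0 := by norm_num
  refine continuousOn_tsum (u := fun p : ℤ × ℤ => ‖(((p.1 : ℂ) + p.2 * tau (1 / 2)) ^ k)⁻¹‖) ?_
    (G_summable (1 / 2) hh k hk).norm ?_
  · rintro ⟨m, n⟩
    by_cases h : (m, n) = (0, 0)
    · rw [Prod.mk.injEq] at h
      obtain ⟨rfl, rfl⟩ := h
      simpa using continuousOn_const
    · have hc : Continuous tau := by
        have : tau = fun t : ℝ => (1 / 2 : ℂ) + t * Complex.I := funext tau_eq
        rw [this]
        fun_prop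
      apply ContinuousOn.inv₀
      · fun_prop
      · intro t ht
        apply pow_ne_zero
        exact pt_ne (by have := ht.1; linarith) h
  · rintro ⟨m, n⟩ t ht
    by_cases h : (m, n) = (0, 0)
    · rw [Prod.mk.injEq] at h
      obtain ⟨rfl, rfl⟩ := h
      simp
    · rw [norm_inv, norm_inv, norm_pow, norm_pow]
      have h1 : 0 < ‖(m : ℂ) + n * tau (1 / 2)‖ := norm_pos_iff.2 (pt_ne hh h)
      apply inv_anti₀ (pow_pos h1 k)
      apply pow_le_pow_left₀ h1.le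
      apply le_of_sq_le_sq _ (norm_nonneg _)
      rw [sq_norm_pt, sq_norm_pt]
      have h2 : (1 / 2 : ℝ) ≤ t := ht.1
      have h3 : (1 / 2 : ℝ) ^ 2 ≤ t ^ 2 := by nlinarith
      have h4 : ((n : ℝ) * (1 / 2)) ^ 2 ≤ ((n : ℝ) * t) ^ 2 := by
        rw [mul_pow, mul_pow]
        exact mul_le_mul_of_nonneg_left h3 (sq_nonneg _)
      linarith

/-- the limit of the Eisenstein series -/
theorem G_lim (k : ℕ) (hk : 2 < k) (he : Even k) {z : ℝ}
    (hz : HasSum (fun n : ℕ => 1 / (n : ℝ) ^ k) z) : Tendsto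
    (fun t : ℝ => ∑' p : ℤ × ℤ, (((p.1 : ℂ) + p.2 * tau t) ^ k)⁻¹) atTop
      (𝓝 ((2 * z : ℝ) : ℂ)) := by
  have hh : (1 / 2 : ℝ) ≠ 0 := by norm_num
  have h1 := tendsto_tsum_of_dominated_convergence (𝓕 := atTop)
    (f := fun (t : ℝ) (p : ℤ × ℤ) => (((p.1 : ℂ) + p.2 * tau t) ^ k)⁻¹)
    (g := fun p : ℤ × ℤ => if p.2 = 0 then ((p.1 : ℂ) ^ k)⁻¹ else 0)
    (G_summable (1 / 2) hh k hk).norm ?_ ?_
  · have h2 : HasSum (fun m : ℤ => ((m : ℂ) ^ k)⁻¹) ((2 * z : ℝ) : ℂ) := by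
      have h3 : HasSum (fun n : ℕ => (((n : ℤ) : ℂ) ^ k)⁻¹) (z : ℂ) := by
        have := Complex.hasSum_ofReal.2 hz
        refine this.congr_fun ?_ |> fun x => x
        intro n
        push_cast
        rw [one_div]
      have h4 : HasSum (fun n : ℕ => (((-(n : ℤ) : ℤ) : ℂ) ^ k)⁻¹) (z : ℂ) := by
        refine h3.congr_fun ?_ |> fun x => x
        intro n
        push_cast
        rw [he.neg_pow]
      have h5 := HasSum.of_nat_of_neg (f := fun m : ℤ => ((m : ℂ) ^ k)⁻¹) h3 h4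
      have h6 : (((0 : ℤ) : ℂ) ^ k)⁻¹ = 0 := by
        rw [Int.cast_zero, zero_pow (by omega), inv_zero]
      rw [h6] at h5
      have e : ((2 * z : ℝ) : ℂ) = (z : ℂ) + z - 0 := by push_cast; ring
      rw [e]
      exact h5
    have h7 : Function.Injective (fun m : ℤ => ((m, 0) : ℤ × ℤ)) := fun a b h => by
      simpa using h
    have h8 : HasSum (fun p : ℤ × ℤ => if p.2 = 0 then ((p.1 : ℂ) ^ k)⁻¹ else 0)
        ((2 * z : ℝ) : ℂ) := by
      rw [← h7.hasSum_iff]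
      · refine h2.congr_fun ?_ |> fun x => x
        intro m
        simp
      · rintro ⟨m, n⟩ hx
        rw [if_neg]
        rintro rfl
        exact hx ⟨m, rfl⟩
    rw [h8.tsum_eq] at h1
    exact h1
  · rintro ⟨m, n⟩
    by_cases hn : n = 0
    · subst hn
      simp
    · simp only [if_neg hn]
      have h2 : Tendsto (fun t : ℝ => t⁻¹) atTop (𝓝 0) := tendsto_inv_atTop_zero
      refine squeeze_zero_norm' ?_ h2
      filter_upwards [eventually_ge_atTop (1 : ℝ)] with t ht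
      have h3 : t ≤ ‖(m : ℂ) + n * tau t‖ := by
        apply le_of_sq_le_sq _ (norm_nonneg _)
        rw [sq_norm_pt]
        have h4 : (1 : ℝ) ≤ (n : ℝ) ^ 2 := by
          have h5 : (1 : ℤ) ≤ n ^ 2 := by
            have := Int.one_le_abs hn
            nlinarith [sq_abs n]
          exact_mod_cast h5
        nlinarith [sq_nonneg ((m : ℝ) + n / 2), sq_nonneg t]
      rw [norm_inv, norm_pow]
      apply inv_anti₀ (by linarith)
      calc t ≤ ‖(m : ℂ) + n * tau t‖ := h3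
        _ ≤ ‖(m : ℂ) + n * tau t‖ ^ k := le_self_pow₀ (by linarith) (by omega)
  · filter_upwards [eventually_ge_atTop (1 : ℝ)] with t ht
    rintro ⟨m, n⟩
    by_cases h : (m, n) = (0, 0)
    · rw [Prod.mk.injEq] at h
      obtain ⟨rfl, rfl⟩ := h
      simp
    · rw [norm_inv, norm_inv, norm_pow, norm_pow]
      have h1 : 0 < ‖(m : ℂ) + n * tau (1 / 2)‖ := norm_pos_iff.2 (pt_ne hh h)
      apply inv_anti₀ (pow_pos h1 k)
      apply pow_le_pow_left₀ h1.le
      apply le_of_sq_le_sq _ (norm_nonneg _)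
      rw [sq_norm_pt, sq_norm_pt]
      have h3 : (1 / 2 : ℝ) ^ 2 ≤ t ^ 2 := by nlinarith
      have h4 : ((n : ℝ) * (1 / 2)) ^ 2 ≤ ((n : ℝ) * t) ^ 2 := by
        rw [mul_pow, mul_pow]
        exact mul_le_mul_of_nonneg_left h3 (sq_nonneg _)
      linarith

theorem zeta_six : HasSum (fun n : ℕ => 1 / (n : ℝ) ^ 6) (Real.pi ^ 6 / 945) := by
  have h := hasSum_zeta_nat (k := 3) (by norm_num)
  have e : bernoulli (2 * 3) = 1 / 42 := by decide +kernel
  rw [e] at h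
  convert h using 1
  rw [show Nat.factorial (2 * 3) = 720 by rfl]
  push_cast
  ring

theorem g2f_lim : Tendsto g2f atTop (𝓝 (4 * Real.pi ^ 4 / 3)) := by
  have h := G_lim 4 (by norm_num) (by decide) hasSum_zeta_four
  have h1 := ((Complex.continuous_re.tendsto _).comp h).const_mul 60
  rw [Complex.ofReal_re] at h1
  have e : (60 : ℝ) * (2 * (Real.pi ^ 4 / 90)) = 4 * Real.pi ^ 4 / 3 := by ring
  rw [e] at h1
  exact h1

theorem g3f_lim : Tendsto g3f atTop (𝓝 (8 * Real.pi ^ 6 / 27)) := by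
  have h := G_lim 6 (by norm_num) (by decide) zeta_six
  have h1 := ((Complex.continuous_re.tendsto _).comp h).const_mul 140
  rw [Complex.ofReal_re] at h1
  have e : (140 : ℝ) * (2 * (Real.pi ^ 6 / 945)) = 8 * Real.pi ^ 6 / 27 := by ring
  rw [e] at h1
  exact h1

theorem exists_t11 : ∃ t : ℝ, 0 < t ∧
    g2f t ^ 3 * (2501 / 27) ^ 2 - (124 / 3) ^ 3 * g3f t ^ 2 = 0 := by
  have hle : (1 / 2 : ℝ) ≤ √3 / 2 := by
    have : (1 : ℝ) ≤ √3 := by
      rw [Real.one_le_sqrt]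
      norm_num
    linarith
  have hlim := ((g2f_lim.pow 3).mul_const ((2501 / 27 : ℝ) ^ 2)).sub
    ((g3f_lim.pow 2).const_mul ((124 / 3 : ℝ) ^ 3))
  have hpos : 0 < (4 * Real.pi ^ 4 / 3) ^ 3 * (2501 / 27 : ℝ) ^ 2 -
      (124 / 3 : ℝ) ^ 3 * (8 * Real.pi ^ 6 / 27) ^ 2 := by
    have e : (4 * Real.pi ^ 4 / 3) ^ 3 * (2501 / 27 : ℝ) ^ 2 -
      (124 / 3 : ℝ) ^ 3 * (8 * Real.pi ^ 6 / 27) ^ 2 = Real.pi ^ 12 * (64 / 27 * (2501 / 27) ^ 2 -
        (124 / 3) ^ 3 * (64 / 729)) := by ring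
    rw [e]
    have := Real.pi_pos
    have h2 : (0 : ℝ) < 64 / 27 * (2501 / 27) ^ 2 - (124 / 3) ^ 3 * (64 / 729) := by norm_num
    positivity
  obtain ⟨T, hT⟩ := (hlim.eventually (eventually_gt_nhds hpos)).exists_forall_of_atTop
  set T' := max T (√3 / 2) with hT'
  have hTT := hT T' (le_max_left _ _)
  have hle2 : √3 / 2 ≤ T' := le_max_right _ _
  have hc4 := G_cont' 4 (by norm_num) T'
  have hc6 := G_cont' 6 (by norm_num) T'
  have hg2 : ContinuousOn g2f (Icc (√3 / 2) T') :=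
    ((Complex.continuous_re.comp_continuousOn hc4).const_mul 60).mono
      (Icc_subset_Icc_left hle)
  have hg3 : ContinuousOn g3f (Icc (√3 / 2) T') :=
    ((Complex.continuous_re.comp_continuousOn hc6).const_mul 140).mono
      (Icc_subset_Icc_left hle)
  have hφ : ContinuousOn (fun t => g2f t ^ 3 * (2501 / 27) ^ 2 - (124 / 3) ^ 3 * g3f t ^ 2)
      (Icc (√3 / 2) T') := by
    fun_prop
  have h3 : g2f (√3 / 2) = 0 := by
    have h := G4_hex
    rw [Pool.Agent.W646.MT.G_eq] at h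
    unfold g2f
    rw [h]
    simp
  have h5 := intermediate_value_Icc hle2 hφ
  have h6 : (0 : ℝ) ∈ Icc (g2f (√3 / 2) ^ 3 * (2501 / 27) ^ 2 - (124 / 3) ^ 3 * g3f (√3 / 2) ^ 2)
      (g2f T' ^ 3 * (2501 / 27) ^ 2 - (124 / 3) ^ 3 * g3f T' ^ 2) := by
    rw [h3]
    constructor
    · nlinarith [sq_nonneg (g3f (√3 / 2))]
    · exact hTT.le
  obtain ⟨t, ht, hφt⟩ := h5 h6
  exact ⟨t, by have := ht.1; linarith, hφt⟩

theorem s_lat11 : S_LAT11 := by
  obtain ⟨t, ht, hφ⟩ := exists_t11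
  have htn := ht.ne'
  set a := g2f t with ha
  set b := g3f t with hb
  have hg2 := g2_eq t htn
  have hg3 := g3_eq t htn
  rw [← ha] at hg2
  rw [← hb] at hg3
  have hnb : ¬ (a = 0 ∧ b = 0) := by
    rintro ⟨h1, h2⟩
    apply not_both (La_halves (t := t) (ht := htn))
    rw [hg2, hg3, h1, h2]
    simp
  have hb0 : b ≠ 0 := by
    intro h
    apply hnb
    refine ⟨?_, h⟩
    rw [h] at hφ
    have : a ^ 3 = 0 := by linarith
    exact pow_eq_zero_iff (by norm_num) |>.1 this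
  have ha0 : a ≠ 0 := by
    intro h
    apply hnb
    refine ⟨h, ?_⟩
    rw [h] at hφ
    have : b ^ 2 = 0 := by linarith
    exact pow_eq_zero_iff (by norm_num) |>.1 this
  set μ : ℝ := (2501 / 27 / b) / (124 / 3 / a) with hμ
  have hμ0 : μ ≠ 0 := by
    rw [hμ]
    positivity
  have hcu : (124 / 3 : ℝ) ^ 3 * b ^ 2 = (2501 / 27) ^ 2 * a ^ 3 := by linarith
  have hR : μ * b * (124 / 3) = 2501 / 27 * a := by
    rw [hμ]
    field_simp
  have hb2 : b ^ 2 ≠ 0 := pow_ne_zero _ hb0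
  have hμ2 : μ ^ 2 * a = 124 / 3 := by
    have h1 : (b ^ 2 * (124 / 3) ^ 2) * (μ ^ 2 * a) = (b ^ 2 * (124 / 3) ^ 2) * (124 / 3) := by
      linear_combination (μ * b * (124 / 3) + 2501 / 27 * a) * a * hR - hcu
    exact mul_left_cancel₀ (mul_ne_zero hb2 (by norm_num)) h1
  have hμ3 : μ ^ 3 * b = 2501 / 27 := by
    have h1 : (b ^ 2 * (124 / 3) ^ 3) * (μ ^ 3 * b) =
        (b ^ 2 * (124 / 3) ^ 3) * (2501 / 27) := by
      linear_combination ((μ * b * (124 / 3)) ^ 2 + (μ * b * (124 / 3)) * (2501 / 27 * a) +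
        (2501 / 27 * a) ^ 2) * hR - (2501 / 27) * hcu
    exact mul_left_cancel₀ (mul_ne_zero hb2 (by norm_num)) h1
  have hμ2' : (μ : ℂ) ^ 2 * a = 124 / 3 := by
    rw [← Complex.ofReal_pow, ← Complex.ofReal_mul, hμ2]
    norm_num
  have hμ3' : (μ : ℂ) ^ 3 * b = 2501 / 27 := by
    rw [← Complex.ofReal_pow, ← Complex.ofReal_mul, hμ3]
    norm_num
  have hμc : (μ : ℂ) ≠ 0 := by exact_mod_cast hμ0
  rcases lt_or_gt_of_ne hμ0 with hneg | hpos
  · obtain ⟨s, hs, hs2⟩ : ∃ s : ℝ, 0 < s ∧ s ^ 2 * (-μ) = 1 := by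
      refine ⟨(√(-μ))⁻¹, inv_pos.2 (Real.sqrt_pos.2 (by linarith)), ?_⟩
      rw [inv_pow, Real.sq_sqrt (by linarith), inv_mul_cancel₀ (by linarith)]
    have hs2' : (s : ℂ) ^ 2 * (-μ) = 1 := by exact_mod_cast hs2
    have hs0 : (s : ℂ) ≠ 0 := by exact_mod_cast hs.ne'
    have hlam : (s : ℂ) * Complex.I ≠ 0 := mul_ne_zero hs0 Complex.I_ne_zero
    have h4 : ((s : ℂ) * Complex.I) ^ 4 * μ ^ 2 = 1 := by
      rw [mul_pow, Complex.I_pow_four]
      linear_combination (-(s : ℂ) ^ 2 * μ + 1) * hs2'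
    have h6 : ((s : ℂ) * Complex.I) ^ 6 * μ ^ 3 = 1 := by
      have e : Complex.I ^ 6 = -1 := by
        calc Complex.I ^ 6 = (Complex.I ^ 2) ^ 3 := by ring
          _ = -1 := by rw [Complex.I_sq]; norm_num
      rw [mul_pow, e]
      linear_combination (((s : ℂ) ^ 2 * (-μ)) ^ 2 + (s : ℂ) ^ 2 * (-μ) + 1) * hs2'
    refine ⟨scale (La t htn) ((s : ℂ) * Complex.I) hlam, s * t, s / 2, by positivity,
      by positivity, ?_, ?_, ?_⟩
    · rw [scale_g2, hg2, ← hμ2', inv_eq_of_mul_eq_one_right h4]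
    · rw [scale_g3, hg3, ← hμ3', inv_eq_of_mul_eq_one_right h6]
    · intro w
      rw [PeriodPair.mem_lattice]
      simp only [scale, La, tau_eq]
      constructor
      · rintro ⟨m, n, rfl⟩
        refine ⟨-n, 2 * m + n, ⟨-n - m, by ring⟩, ?_⟩
        push_cast
        linear_combination (n : ℂ) * s * t * Complex.I_sq
      · rintro ⟨x, y, ⟨k, hk⟩, rfl⟩
        have hy : y = x - 2 * k := by omega
        subst hy
        refine ⟨x - k, -x, ?_⟩
        push_cast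
        linear_combination -(x : ℂ) * s * t * Complex.I_sq
  · obtain ⟨s, hs, hs2⟩ : ∃ s : ℝ, 0 < s ∧ s ^ 2 * μ = 1 := by
      refine ⟨(√μ)⁻¹, inv_pos.2 (Real.sqrt_pos.2 hpos), ?_⟩
      rw [inv_pow, Real.sq_sqrt hpos.le, inv_mul_cancel₀ hμ0]
    have hs2' : (s : ℂ) ^ 2 * μ = 1 := by exact_mod_cast hs2
    have hs0 : (s : ℂ) ≠ 0 := by exact_mod_cast hs.ne'
    have h4 : (s : ℂ) ^ 4 * μ ^ 2 = 1 := by
      linear_combination ((s : ℂ) ^ 2 * μ + 1) * hs2'
    have h6 : (s : ℂ) ^ 6 * μ ^ 3 = 1 := by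
      linear_combination (((s : ℂ) ^ 2 * μ) ^ 2 + (s : ℂ) ^ 2 * μ + 1) * hs2'
    refine ⟨scale (La t htn) (s : ℂ) hs0, s / 2, s * t, by positivity,
      by positivity, ?_, ?_, ?_⟩
    · rw [scale_g2, hg2, ← hμ2', inv_eq_of_mul_eq_one_right h4]
    · rw [scale_g3, hg3, ← hμ3', inv_eq_of_mul_eq_one_right h6]
    · intro w
      rw [PeriodPair.mem_lattice]
      simp only [scale, La, tau_eq]
      constructor
      · rintro ⟨m, n, rfl⟩
        refine ⟨2 * m + n, n, ⟨m, by ring⟩, ?_⟩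
        push_cast
        ring
      · rintro ⟨x, y, ⟨k, hk⟩, rfl⟩
        have hx : x = y + 2 * k := by omega
        subst hx
        refine ⟨k, y, ?_⟩
        push_cast
        ring

end Pool.Agent.Y702.P
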