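import Pool.Agent.Y702.P.TORS
import Pool.Agent.H285R3.Str.PerCx
import Pool.Agent.Helper620.Wg.KI

/-!
The real point of order five.
-/

set_option autoImplicit false

open Set Filter Topology

namespace Pool.Agent.Y702.P

open Pool.Agent.H285R3.Str

theorem s_real11 : S_REAL11 := by
  intro L Op Om hOp hOm hg2 hg3 hL t ht0 ht1 hPt hdt
  have hc : ∀ l ∈ L.lattice, (starRingEnd ℂ) l ∈ L.lattice := by
    intro l hl
    obtain ⟨a, b, hab, rfl⟩ := (hL l).1 hl
    refine (hL _).2 ⟨a, -b, by omega, ?_⟩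
    simp only [map_add, map_mul, Complex.conj_ofReal, Complex.conj_I, map_intCast]
    push_cast
    ring
  -- real lattice points
  have hreal : ∀ x : ℝ, (x : ℂ) ∈ L.lattice → ∃ k : ℤ, x = k * (2 * Op) := by
    intro x hx
    obtain ⟨a, b, hab, h⟩ := (hL _).1 hx
    have h1 := congrArg Complex.im h
    have h2 := congrArg Complex.re h
    simp at h1 h2
    have hb : b = 0 := by
      rcases h1 with h1 | h1
      · exact h1
      · exact absurd h1 hOm.ne'
    subst hb
    obtain ⟨k, hk⟩ := hab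
    have ha : a = 2 * k := by linarith
    refine ⟨k, ?_⟩
    rw [h2, ha]
    push_cast
    ring
  have hnot : ∀ x : ℝ, 0 < x → x < 2 * Op → (x : ℂ) ∉ L.lattice := by
    intro x h0 h1 hx
    obtain ⟨k, hk⟩ := hreal x hx
    have h2 : (0 : ℝ) < k := by
      by_contra hcon
      push Not at hcon
      nlinarith
    have h3 : (k : ℝ) < 1 := by
      by_contra hcon
      push Not at hcon
      nlinarith
    have h4 : (0 : ℤ) < k := by exact_mod_cast h2
    have h5 : k < (1 : ℤ) := by exact_mod_cast h3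
    omega
  set p : ℝ → ℝ := fun x => (L.weierstrassP x).re with hp
  set q : ℝ → ℝ := fun x => (L.derivWeierstrassP x).re with hq
  have hpx : ∀ x : ℝ, L.weierstrassP x = (p x : ℂ) := by
    intro x
    have := P_conj L hc x
    rw [Complex.conj_ofReal] at this
    exact (Complex.conj_eq_iff_re.1 this.symm).symm
  have hqx : ∀ x : ℝ, L.derivWeierstrassP x = (q x : ℂ) := by
    intro x
    have := P'_conj L hc x
    rw [Complex.conj_ofReal] at this
    exact (Complex.conj_eq_iff_re.1 this.symm).symm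
  have hopen : IsOpen (L.lattice : Set ℂ)ᶜ := L.isClosed_lattice.isOpen_compl
  have hd : ∀ x ∈ Ioo (0 : ℝ) (2 * Op), HasDerivAt p (q x) x := by
    intro x hx
    have hx' : (x : ℂ) ∈ (L.lattice : Set ℂ)ᶜ := hnot x hx.1 hx.2
    have h2 : DifferentiableAt ℂ L.weierstrassP x :=
      (L.differentiableOn_weierstrassP x hx').differentiableAt (hopen.mem_nhds hx')
    have h3 := h2.hasDerivAt
    rw [L.deriv_weierstrassP] at h3
    exact h3.real_of_complex
  have hcq : ContinuousOn q (Ioo (0 : ℝ) (2 * Op)) := by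
    have h2 : ContinuousOn L.derivWeierstrassP (L.lattice : Set ℂ)ᶜ :=
      L.differentiableOn_derivWeierstrassP.continuousOn
    have h3 : ContinuousOn (fun x : ℝ => L.derivWeierstrassP x) (Ioo (0 : ℝ) (2 * Op)) :=
      h2.comp Complex.continuous_ofReal.continuousOn (fun x hx => hnot x hx.1 hx.2)
    exact Complex.continuous_re.comp_continuousOn h3
  have htop : Tendsto p (𝓝[>] 0) atTop := by
    have h2 : ∀ x : ℝ, p x = (L.weierstrassPExcept 0 x).re + 1 / x ^ 2 := by
      intro x
      have h3 := L.weierstrassPExcept_add 0 x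
      simp only [Submodule.coe_zero, sub_zero] at h3
      simp only [hp]
      rw [← h3]
      rw [Complex.add_re]
      congr 1
      have : (1 / (x : ℂ) ^ 2 - 1 / (0 : ℂ) ^ 2) = ((1 / x ^ 2 : ℝ) : ℂ) := by
        push_cast; simp
      rw [this, Complex.ofReal_re]
    have h3 : ContinuousAt (fun x : ℝ => (L.weierstrassPExcept 0 x).re) 0 := by
      have h4 : ContinuousAt (L.weierstrassPExcept 0) ((0 : ℝ) : ℂ) := by
        refine ((L.differentiableOn_weierstrassPExcept 0).differentiableAt ?_).continuousAt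
        exact_mod_cast L.compl_lattice_sdiff_singleton_mem_nhds 0
      exact Complex.continuous_re.continuousAt.comp
        (ContinuousAt.comp (f := fun x : ℝ => (x : ℂ)) h4 Complex.continuous_ofReal.continuousAt)
    have h4 : Tendsto (fun x : ℝ => (L.weierstrassPExcept 0 x).re) (𝓝[>] 0)
        (𝓝 (L.weierstrassPExcept 0 ((0 : ℝ) : ℂ)).re) := h3.tendsto.mono_left nhdsWithin_le_nhds
    have h5 : Tendsto (fun x : ℝ => 1 / x ^ 2) (𝓝[>] 0) atTop := by
      have h6 : Tendsto (fun x : ℝ => (x⁻¹) ^ 2) (𝓝[>] 0) atTop :=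
        (tendsto_pow_atTop two_ne_zero).comp tendsto_inv_nhdsGT_zero
      refine h6.congr fun x => ?_
      rw [one_div, inv_pow]
    have h7 := h4.add_atTop h5
    exact h7.congr fun x => (h2 x).symm
  have hsub : Ioo (0 : ℝ) Op ⊆ Ioo (0 : ℝ) (2 * Op) := Ioo_subset_Ioo_right (by linarith)
  -- sign of the derivative
  have hqneg : ∀ x ∈ Ioo (0 : ℝ) Op, q x < 0 := by
    have hqne : ∀ x ∈ Ioo (0 : ℝ) Op, q x ≠ 0 := by
      intro x hx h0
      have h1 : 2 * (x : ℂ) ∉ L.lattice := by
        have := hnot (2 * x) (by have := hx.1; linarith) (by have := hx.2; linarith)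
        push_cast at this
        exact this
      refine Wg.wpd_ne L x h1 ?_
      rw [hqx, h0, Complex.ofReal_zero]
    by_contra hcon
    push Not at hcon
    obtain ⟨x0, hx0, hx0'⟩ := hcon
    have hx0pos : 0 < q x0 := lt_of_le_of_ne hx0' (hqne x0 hx0).symm
    have hall : ∀ x ∈ Ioo (0 : ℝ) Op, 0 < q x := by
      intro x hx
      by_contra hn
      have hn' : q x ≤ 0 := not_lt.1 hn
      obtain ⟨y, hy, hy'⟩ := isPreconnected_Ioo.intermediate_value hx hx0
        (hcq.mono hsub) (show (0 : ℝ) ∈ Icc (q x) (q x0) from ⟨hn', hx0pos.le⟩)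
      exact hqne y hy hy'
    have hmono : StrictMonoOn p (Ioo (0 : ℝ) Op) := by
      refine strictMonoOn_of_deriv_pos (convex_Ioo _ _) ?_ ?_
      · intro x hx
        exact (hd x (hsub hx)).continuousAt.continuousWithinAt
      · intro x hx
        rw [interior_Ioo] at hx
        rw [(hd x (hsub hx)).deriv]
        exact hall x hx
    have h3 : ∀ᶠ x in 𝓝[>] (0 : ℝ), p x0 < p x := htop.eventually_gt_atTop (p x0)
    have h4 : ∀ᶠ x in 𝓝[>] (0 : ℝ), x ∈ Ioo (0 : ℝ) x0 := Ioo_mem_nhdsGT hx0.1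
    obtain ⟨x, hx, hx'⟩ := (h3.and h4).exists
    have := hmono ⟨hx'.1, hx'.2.trans hx0.2⟩ hx0 hx'.2
    linarith
  have hanti : StrictAntiOn p (Ioo (0 : ℝ) Op) := by
    refine strictAntiOn_of_deriv_neg (convex_Ioo _ _) ?_ ?_
    · intro x hx
      exact (hd x (hsub hx)).continuousAt.continuousWithinAt
    · intro x hx
      rw [interior_Ioo] at hx
      rw [(hd x (hsub hx)).deriv]
      exact hqneg x hx
  have h2Op : ((2 * Op : ℝ) : ℂ) ∈ L.lattice := by
    refine (hL _).2 ⟨2, 0, by norm_num, ?_⟩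
    push_cast
    ring
  -- symmetry
  have hrefl : ∀ x : ℝ, p (2 * Op - x) = p x ∧ q (2 * Op - x) = - q x := by
    intro x
    have h1 := L.weierstrassP_add_coe (-(x : ℂ)) ⟨_, h2Op⟩
    have h2 := L.derivWeierstrassP_add_coe (-(x : ℂ)) ⟨_, h2Op⟩
    have e : -(x : ℂ) + ((2 * Op : ℝ) : ℂ) = ((2 * Op - x : ℝ) : ℂ) := by push_cast; ring
    simp only [e, L.weierstrassP_neg] at h1
    simp only [e, L.derivWeierstrassP_neg] at h2
    rw [hpx, hpx] at h1
    rw [hqx, hqx] at h2
    exact ⟨by exact_mod_cast h1, by exact_mod_cast h2⟩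
  obtain ⟨d, hd0, hdd⟩ := hdt
  have hqt : q t < 0 := by
    rw [hqx] at hdd
    have : q t = d := by exact_mod_cast hdd
    rw [this]; exact hd0
  -- t < Op
  have htOp : t < Op := by
    by_contra hcon
    push Not at hcon
    have h1 := (hrefl t).2
    by_cases h2 : t = Op
    · rw [h2, show 2 * Op - Op = Op by ring] at h1
      rw [h2] at hqt
      linarith
    · have h3 : Op < t := lt_of_le_of_ne hcon (Ne.symm h2)
      have h4 := hqneg (2 * Op - t) ⟨by linarith, by linarith⟩
      linarith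
  obtain ⟨h2t, hP2, h5t⟩ := s_tors11 L hg2 hg3 t (hnot t ht0 ht1) hPt
  obtain ⟨k, hk⟩ := hreal (5 * t) (by push_cast; exact h5t)
  have hk0 : (0 : ℝ) < k := by
    by_contra hcon
    push Not at hcon
    nlinarith
  have hk3 : (k : ℝ) < 3 := by
    by_contra hcon
    push Not at hcon
    nlinarith
  have hk0' : (0 : ℤ) < k := by exact_mod_cast hk0
  have hk3' : k < (3 : ℤ) := by exact_mod_cast hk3
  have hk12 : k = 1 ∨ k = 2 := by omega
  rcases hk12 with rfl | rfl
  · rw [hk]; push_cast; ring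
  · exfalso
    push_cast at hk
    have e1 : p (2 * t) = 14 / 3 := by
      have h1 := hpx (2 * t)
      push_cast at h1
      rw [hP2] at h1
      have h2 : ((p (2 * t) : ℝ) : ℂ) = ((14 / 3 : ℝ) : ℂ) := by rw [← h1]; push_cast; ring
      exact_mod_cast h2
    have e2 : p t = 47 / 3 := by
      have h1 := hpx t
      rw [hPt] at h1
      have h2 : ((p t : ℝ) : ℂ) = ((47 / 3 : ℝ) : ℂ) := by rw [← h1]; push_cast; ring
      exact_mod_cast h2
    have e3 := (hrefl (2 * t)).1
    have h1 : 2 * Op - 2 * t ∈ Ioo (0 : ℝ) Op := ⟨by linarith, by linarith⟩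
    have h2 : t ∈ Ioo (0 : ℝ) Op := ⟨ht0, htOp⟩
    have h3 := hanti h1 h2 (by linarith)
    rw [e3, e1, e2] at h3
    norm_num at h3

end Pool.Agent.Y702.P
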