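import Pool.Agent.W349.MT.TORS
import Pool.Agent.W646.MT.INJ
import Pool.Agent.Y702.Stm

set_option autoImplicit false

namespace Pool.Agent.Y702.P

open Pool.Agent.W97.MT Pool.Agent.Helper487.ECM Pool.Agent.W349.MT

theorem dup11 (L : PeriodPair) (hg2 : L.g₂ = 124 / 3) (u : ℂ) (hu : u ∉ L.lattice)
    {x y : ℂ} (hP : L.weierstrassP u = x) (hY : L.derivWeierstrassP u ^ 2 = y) (hy : y ≠ 0) :
    2 * u ∉ L.lattice ∧ L.weierstrassP (2 * u) = (6 * x ^ 2 - 62 / 3) ^ 2 / (4 * y) - 2 * x := by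
  have hu' : u ∈ Dom L := hu
  have hY1ne : L.derivWeierstrassP u ≠ 0 := by
    intro h
    rw [h] at hY
    exact hy (by rw [← hY]; norm_num)
  have h2u : 2 * u ∉ L.lattice := fun h => hY1ne (dwp_zero L u h)
  have h2u' : u + u ∈ Dom L := by
    show u + u ∉ L.lattice
    rw [← two_mul]; exact h2u
  refine ⟨h2u, ?_⟩
  have h := wp_dup L hu' h2u' (by rw [wp_one_eq]; exact hY1ne)
  rw [wp_two L hu', wp_one_eq, wp_zero_eq, hP, hg2, ← two_mul] at h
  rw [h, div_pow, mul_pow, hY]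
  norm_num

theorem s_tors11 : S_TORS11 := by
  intro L hg2 hg3 u hu hP
  have hY1 : L.derivWeierstrassP u ^ 2 = 14641 := by
    rw [L.derivWeierstrassP_sq u hu, hP, hg2, hg3]; norm_num
  obtain ⟨h2u, hP2⟩ := dup11 L hg2 u hu hP hY1 (by norm_num)
  have hP2' : L.weierstrassP (2 * u) = 14 / 3 := by rw [hP2]; norm_num
  have hY2 : L.derivWeierstrassP (2 * u) ^ 2 = 121 := by
    rw [L.derivWeierstrassP_sq _ h2u, hP2', hg2, hg3]; norm_num
  obtain ⟨h4u, hP4⟩ := dup11 L hg2 (2 * u) h2u hP2' hY2 (by norm_num)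
  have hP4' : L.weierstrassP (2 * (2 * u)) = L.weierstrassP u := by rw [hP4, hP]; norm_num
  refine ⟨h2u, hP2', ?_⟩
  rcases Pool.Agent.W646.MT.s_inj L _ _ h4u hu hP4' with h | h
  · exfalso
    have e : 2 * (2 * u) - u = 3 * u := by ring
    rw [e] at h
    have h1 := L.weierstrassP_add_coe (-u) ⟨3 * u, h⟩
    have e : -u + 3 * u = 2 * u := by ring
    simp only [e, L.weierstrassP_neg] at h1
    rw [hP2', hP] at h1
    norm_num at h1
  · have e : 2 * (2 * u) + u = 5 * u := by ring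
    rwa [e] at h

end Pool.Agent.Y702.P
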